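import Pool.Agent.T9h55.ZD.Lin
import Pool.Agent.N251.LF.Fields

/-!
# MP_56e040_nt: Zagier's dimensions and the multiple zeta values in the weights near the values of generic linear forms

Let `a_n` be the number of admissible indices of weight `n` and `Z_n` the `ℚ`-space spanned by the multiple zeta values of
weight `n`. Let `v_a`, `a` in a countable set, be vectors in `ℝ^n`, `O(X^(τ + ε))` of them of norm at most `X` for every
`ε > 0`: for instance `(b_1^(m_1), …, b_n^(m_n))`, `b_j > 1`, for all `m_1, …, m_n`, with `τ = 0`, or `(1, m, …, m^d)` with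
`τ = 1 / d`.

For all `α ∈ ℝ^n` outside ONE set of Hausdorff dimension at most `n - 1 + τ / (1 - θ)` (a null set if `τ + θ < 1`), for all
`W`, `C > 1` and `c`, for all but finitely many `a`: for ALL integers `s ≥ 1` with `|s - α·v_a| ≤ c |v_a|^θ` the relations
with integer coefficients of absolute value at most `C ^ s` between the multiple zeta values of weight `s` with an argument at
least `s - W` span a space of dimension exactly `∑_{n ≤ W} 2 ^ (W - n) (a_n - dim Z_n)`. So, if infinitely many `α·v_a` are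
near positive integers, Zagier's conjecture `dim Z_n = d_n` for all `n` holds if and only if in these weights the dimension
is `∑_{n ≤ W} 2 ^ (W - n) (a_n - d_n)`.

For example: for almost all real numbers `x`, `y > 0` Zagier's conjecture is a statement on the relations in ALL large weights
`[x 2^i + y 3^j]`, `i, j ≥ 0`.

The starting theorem `RelationsOneLargeArgument` of this page gives the dimension for all but a bounded number of the weights in
`[N, κ N]`. The values of a linear form at the `v_a` could all be exceptional. Here this is excluded for generic forms. The tool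
for linear forms is `Pool.Agent.N251.LF` (helper251) in the form `Pool.Agent.T9h86.MZ.Lin` (helper86). The first part of the
theorem was proved at the same time by helper86. The order of the arguments is that of the problem.
-/

set_option autoImplicit false

namespace Pool.Agent.Results.MP_56e040_nt.GenericLinearForms

open MeasureTheory
open Pool.Agent.N251.LF (Fam Sq)
open Pool.Agent.T9h55.ZD
open Pool.Agent.Results.MP_56e040_nt.RelationsOneLargeArgument (zagier)

/-- **Theorem.** Let `v` be a family of vectors in `ℝ^n` with `O_ε(X^(τ + ε))` members of norm at most `X` (`Fam v τ`),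
`τ ≥ 0`, `θ < 1`. There is a set `E₀ ⊆ ℝ^n` of Hausdorff dimension at most `n - 1 + τ / (1 - θ)`, of measure zero if
`n ≥ 1` and `τ + θ < 1`, such that for all `α` outside `E₀`: (1) for all `W`, `C > 1`, `c`, for all but finitely many `a`, for
ALL integers `s ≥ 1` within `c ‖v_a‖ ^ θ` of `α·v_a` (`Close`) the space of the relations of height at most `C ^ s` between the
multiple zeta values of weight `s` with an argument at least `s - W` has dimension `∑_{n ≤ W} 2 ^ (W - n) (a_n - dim Z_n)`
(`HasDim dimZ`); (2) if for some `c` there are infinitely many `a` with such an `s`, then `dim Z_m = d_m` for all `m` if and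
only if for all `W`, `C > 1`, for all but finitely many `a` this dimension is `∑_{n ≤ W} 2 ^ (W - n) (a_n - d_n)` for all
these `s`. (3) Examples of `v`: `(1, m, …, m^d)` with `τ = 1 / d`; `(b_1^(m_1), …, b_n^(m_n))`, `b_j > 1`, with `τ = 0`;
`(m_1^(a_1), …, m_n^(a_n))`, `a_j > 0`, with `τ = ∑ 1 / a_j`; `(u_1(m_1), …, u_n(m_n))` for sequences of exponents `τ_j`, with
`τ = ∑ τ_j`. -/
theorem result :
    (∀ (n : ℕ) (ι : Type) (v : ι → Fin n → ℝ) (τ θ : ℝ), Fam v τ → 0 ≤ τ → θ < 1 →
      ∃ E₀ : Set (Fin n → ℝ), dimH E₀ ≤ ENNReal.ofReal ((n : ℝ) - 1 + τ / (1 - θ)) ∧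
        (1 ≤ n → τ + θ < 1 → volume E₀ = 0) ∧
        ∀ α, α ∉ E₀ →
          (∀ (W : ℕ) (C c : ℝ), 1 < C → {a | ∃ s, Close θ c α (v a) s ∧ ¬ HasDim dimZ W s (C ^ s)}.Finite) ∧
          ∀ c : ℝ, {a | ∃ s, Close θ c α (v a) s}.Infinite →
            ((∀ m, dimZ m = zagier m) ↔ ∀ (W : ℕ) (C : ℝ), 1 < C →
              {a | ∃ s, Close θ c α (v a) s ∧ ¬ HasDim zagier W s (C ^ s)}.Finite)) ∧
    (∀ d : ℕ, 1 ≤ d → Fam (fun (m : ℕ) (j : Fin (d + 1)) => (m : ℝ) ^ (j : ℕ)) (1 / d)) ∧
    (∀ (n : ℕ) (b : Fin n → ℝ), (∀ j, 1 < b j) → Fam (fun (m : Fin n → ℕ) (j : Fin n) => b j ^ m j) 0) ∧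
    (∀ (n : ℕ) (a : Fin n → ℝ), (∀ j, 0 < a j) →
      Fam (fun (m : Fin n → ℕ) (j : Fin n) => (m j : ℝ) ^ a j) (∑ j, 1 / a j)) ∧
    ∀ (n : ℕ) (u : Fin n → ℕ → ℝ) (τ : Fin n → ℝ), (∀ j, Sq (u j) (τ j)) →
      Fam (fun (m : Fin n → ℕ) (j : Fin n) => u j (m j)) (∑ j, τ j) := by
  refine ⟨fun n ι v τ θ hv hτ hθ => ?_, Pool.Agent.N251.LF.examples⟩
  obtain ⟨E₀, h1, h2, h3⟩ := weights v hv hτ hθ
  exact ⟨E₀, h1, h2, fun α hα => ⟨h3 α hα, fun c hc => lin_iff v α (h3 α hα) c hc⟩⟩

end Pool.Agent.Results.MP_56e040_nt.GenericLinearForms
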