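import Pool.Agent.T9h57.HS.Dim
import Pool.Agent.Results.MP_56e040_nt.RelationsOneLargeArgument

/-!
# MP_56e040_nt: Zagier's dimensions and the relations between multiple zeta values with several large arguments

Fix `k ≥ 1` and `W ≥ 0`. A pattern of weight `s_1 + ... + s_k + W` is an index whose entries are sums of some of the
variables `s_1, ..., s_k` and a constant: every variable occurs exactly once, with coefficient one, the constants add up to
`W`, and the index is admissible; for example `(s_2 + 1, 2, s_1 + s_3, 1)` for `k = 3`, `W = 4`. For natural numbers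
`s = (s_1, ..., s_k)` these patterns give multiple zeta values `ζ(w(s))` of the same weight `s_1 + ... + s_k + W`. Let
`g(m)` be the number of the patterns of weight `s_1 + ... + s_k + m` whose first entry is not constant, `a_n` the number of
admissible indices of weight `n`, and `Z_n` the `ℚ`-space spanned by the multiple zeta values of weight `n`. An identity is a
vector `(c_w)` of rational numbers, indexed by the patterns of weight `s_1 + ... + s_k + W`, with `∑ c_w ζ(w(s)) = 0` for ALL
`s_1, ..., s_k ≥ 2`.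

Theorem (unconditional). (1) The space of the identities has dimension `∑_{n ≤ W} g(W - n) (a_n - dim Z_n)`.
(2) For all `κ` there are `K` and `Q` such that for all `C > 1` and all large `N`, for ALL `s ∈ [N, κ N] ^ k` off at most `K`
hyperplanes `c_1 s_1 + ... + c_k s_k = b` with integers `c_j`, not all zero, `|c_j| ≤ Q`, the relations with integer
coefficients of absolute value at most `C ^ N` between the numbers `ζ(w(s))` span the space of the identities; so every such
relation at the single tuple `s` is an identity in `s`.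
(3) Zagier's conjecture `dim Z_n = d_n` for all `n` holds if and only if for all `W` the space of the identities has
dimension `∑_{n ≤ W} g(W - n) (a_n - d_n)`, and if and only if for all `W`, off few hyperplanes, the relations of height at
most `C ^ N` between the numbers `ζ(w(s))` span a space of this dimension (for one `k` or for all `k`).
(4) For `W ≤ 2` there is no identity, hence no relation of height at most `C ^ N` off few hyperplanes; for `W = 3` the space
of the identities has dimension `g(0)`, the number of the patterns of weight `s_1 + ... + s_k`.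

The starting file `RelationsOneLargeArgument` treats one large argument (`k = 1`), with a bounded number of exceptional
weights. For several large arguments the exceptional tuples are infinite in number; that they lie on few hyperplanes is
proved in `T9h57/HS`: `3 ^ m` exceptional tuples cannot be in general position, by the elimination of the constants of
`X90/DC` (starting library).
-/

set_option autoImplicit false

namespace Pool.Agent.Results.MP_56e040_nt.SeveralLargeArguments

open Finset
open Pool.Agent.T9h57.HS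
open Pool.Agent.X90.DB (Ad ix)
open Pool.Agent.X90.DC (Ge Gd Lr)
open Pool.Agent.X90.DD (WS)
open Pool.Agent.X90.DE (na)
open Pool.Agent.Results.MP_56e040_nt.RelationsOneLargeArgument
  (mzv mzv_fun weightSpace numIndices zagier num_eq finrank_weightSpace rank_zero' rank_one' rank_two' rank_three')

/-- the letter `(b, u)` stands for `b + ∑ u_j s_j` -/
abbrev Letter (k : ℕ) : Type := ℕ × (Fin k → ℕ)

/-- the index given by a list of letters at the tuple `s` -/
def index {k : ℕ} (s : Fin k → ℕ) (w : List (Letter k)) : List ℕ :=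
  w.map fun u => u.1 + ∑ j, u.2 j * s j

/-- the patterns of weight `s_1 + ... + s_k + W`: the constant letters are positive, the first letter is at least two if it
is constant, the constants add up to `W` and each variable occurs exactly once -/
def IsPattern {k : ℕ} (W : ℕ) (w : List (Letter k)) : Prop :=
  (∀ u ∈ w.head?, u.2 ≠ 0 ∨ 2 ≤ u.1) ∧ (∀ u ∈ w, u.2 ≠ 0 ∨ 1 ≤ u.1) ∧
    (w.map Prod.fst).sum = W ∧ (w.map Prod.snd).sum = 1

/-- the number of the patterns of weight `s_1 + ... + s_k + m` whose first letter is not constant -/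
noncomputable def numFree (k m : ℕ) : ℕ := {w : List (Letter k) | IsPattern m w ∧ ∀ u ∈ w.head?, u.2 ≠ 0}.ncard

/-- the `ℚ`-space spanned by the relations `∑ c_w ζ(w(s)) = 0`, with integers `c_w` of absolute value at most `B`, between
the values of the patterns at `s` -/
noncomputable def relationSpace (k W : ℕ) (s : Fin k → ℕ) (B : ℝ) :
    Submodule ℚ ({w : List (Letter k) // IsPattern W w} →₀ ℚ) :=
  Submodule.span ℚ {c | (∀ w, ∃ z : ℤ, c w = z ∧ |(z : ℝ)| ≤ B) ∧
    c.sum (fun w x => (x : ℝ) * mzv (index s w.1)) = 0}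

/-- the space spanned by (hence of) the identities `∑ c_w ζ(w(s)) = 0` for all `s_1, ..., s_k ≥ 2` -/
noncomputable def identities (k W : ℕ) : Submodule ℚ ({w : List (Letter k) // IsPattern W w} →₀ ℚ) :=
  Submodule.span ℚ {c | ∀ s : Fin k → ℕ, (∀ j, 2 ≤ s j) →
    c.sum (fun w x => (x : ℝ) * mzv (index s w.1)) = 0}

/-- for all `κ` there are `K` and `Q` such that for all `C > 1` and all sufficiently large `N`, all tuples
`s ∈ [N, κ N] ^ k` for which `P (C ^ N) s` fails lie on at most `K` hyperplanes `c_1 s_1 + ... + c_k s_k = b` with integers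
`c_j`, not all zero, and `|c_j| ≤ Q` -/
def OffHyperplanes {k : ℕ} (P : ℝ → (Fin k → ℕ) → Prop) : Prop :=
  ∀ κ : ℕ, ∃ K Q : ℕ, ∀ C : ℝ, 1 < C → ∃ N₀ : ℕ, ∀ N : ℕ, N₀ ≤ N → ∃ H : Finset ((Fin k → ℤ) × ℤ), H.card ≤ K ∧
    (∀ h ∈ H, h.1 ≠ 0 ∧ ∀ j, |h.1 j| ≤ Q) ∧
    ∀ s : Fin k → ℕ, (∀ j, N ≤ s j ∧ s j ≤ κ * N) → ¬ P (C ^ N) s → ∃ h ∈ H, ∑ j, h.1 j * (s j : ℤ) = h.2

theorem isPattern_iff {k W : ℕ} (w : List (Letter k)) : IsPattern W w ↔ w ∈ pats k W := by
  rw [mem_pats, IsPattern, wt, Prod.ext_iff, Ge]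
  exact ⟨fun h => ⟨⟨h.1, h.2.1⟩, h.2.2⟩, fun h => ⟨h.1.1, h.1.2, h.2⟩⟩

theorem numFree_eq (k m : ℕ) : numFree k m = gk k m := by
  rw [numFree, gk]
  congr 1
  ext w
  rw [Set.mem_setOf_eq, Set.mem_setOf_eq, IsPattern, Gd, wt, Prod.ext_iff]
  constructor
  · rintro ⟨⟨-, h2, h3⟩, h4⟩
    exact ⟨⟨h4, h2⟩, h3⟩
  · rintro ⟨⟨h1, h2⟩, h3⟩
    exact ⟨⟨fun u hu => Or.inl (h1 u hu), h2, h3⟩, h1⟩

/-- the patterns of a given weight -/
def eqv (k W : ℕ) : ↥(pats k W) ≃ {w : List (Letter k) // IsPattern W w} :=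
  Equiv.subtypeEquivRight fun w => (isPattern_iff w).symm

/-- functions on the patterns -/
noncomputable def E (k W : ℕ) : (↥(pats k W) → ℚ) ≃ₗ[ℚ] ({w : List (Letter k) // IsPattern W w} →₀ ℚ) :=
  (Finsupp.linearEquivFunOnFinite ℚ ℚ ↥(pats k W)).symm ≪≫ₗ Finsupp.domLCongr (eqv k W)

theorem E_apply {k W : ℕ} (c : ↥(pats k W) → ℚ) (i : ↥(pats k W)) : E k W c (eqv k W i) = c i := by
  rw [E, LinearEquiv.trans_apply, Finsupp.domLCongr_apply, Finsupp.domCongr_apply, Finsupp.equivMapDomain_apply,
    Equiv.symm_apply_apply]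
  rfl

theorem E_sum {k W : ℕ} (c : ↥(pats k W) → ℚ) (s : Fin k → ℕ) :
    (E k W c).sum (fun w x => (x : ℝ) * mzv (index s w.1)) =
      ∑ i, (c i : ℝ) * Pool.Agent.Y760.ZG.mz (ix s i.1) := by
  classical
  have : Fintype {w : List (Letter k) // IsPattern W w} := Fintype.ofEquiv _ (eqv k W)
  rw [Finsupp.sum_fintype _ _ (fun i => by simp), ← (eqv k W).sum_comp, mzv_fun]
  exact sum_congr rfl fun i _ => by rw [E_apply]; rfl

theorem relationSpace_eq (k W : ℕ) (s : Fin k → ℕ) (B : ℝ) :
    relationSpace k W s B = (relP k W s B).map (E k W : (↥(pats k W) → ℚ) →ₗ[ℚ] _) := by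
  rw [relP, Submodule.map_span, relationSpace]
  congr 1
  ext c
  constructor
  · rintro ⟨h1, h2⟩
    obtain ⟨c, rfl⟩ := (E k W).surjective c
    choose z hz1 hz2 using h1
    refine ⟨c, ⟨fun i => z (eqv k W i), fun i => ⟨?_, hz2 _⟩, ?_⟩, rfl⟩
    · rw [← hz1, E_apply]
    · rw [E_sum] at h2
      rw [← h2]
      refine sum_congr rfl fun i _ => ?_
      rw [← E_apply c i, hz1]
      push_cast
      rfl
  · rintro ⟨c, ⟨z, hz, hrel⟩, rfl⟩
    refine ⟨fun w => ?_, ?_⟩
    · obtain ⟨i, rfl⟩ := (eqv k W).surjective w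
      exact ⟨z i, by rw [← (hz i).1]; exact E_apply c i, (hz i).2⟩
    · show (E k W c).sum (fun w x => (x : ℝ) * mzv (index s w.1)) = 0
      rw [E_sum, ← hrel]
      refine sum_congr rfl fun i _ => ?_
      rw [(hz i).1]
      push_cast
      rfl

theorem identities_eq (k W : ℕ) :
    identities k W = (idents k W).map (E k W : (↥(pats k W) → ℚ) →ₗ[ℚ] _) := by
  refine le_antisymm (Submodule.span_le.2 fun c h => ?_) ?_
  · obtain ⟨c, rfl⟩ := (E k W).surjective c
    refine ⟨c, ?_, rfl⟩
    rw [SetLike.mem_coe, mem_idents]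
    intro s hs
    rw [← E_sum]
    exact h s hs
  · rintro _ ⟨c, hc, rfl⟩
    rw [SetLike.mem_coe, mem_idents] at hc
    refine Submodule.subset_span fun s hs => ?_
    show (E k W c).sum (fun w x => (x : ℝ) * mzv (index s w.1)) = 0
    rw [E_sum]
    exact hc s hs

/-- (1) -/
theorem dims {k : ℕ} (hk : 0 < k) (W : ℕ) : Module.finrank ℚ (identities k W) +
      ∑ n ∈ range (W + 1), numFree k (W - n) * Module.finrank ℚ (weightSpace n) =
        ∑ n ∈ range (W + 1), numFree k (W - n) * numIndices n := by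
  rw [identities_eq, LinearEquiv.finrank_map_eq]
  simp only [numFree_eq, finrank_weightSpace, num_eq]
  exact (structH k W hk).1

/-- (2) -/
theorem off {k : ℕ} (hk : 0 < k) (W : ℕ) : OffHyperplanes fun B s => relationSpace k W s B = identities k W := by
  intro κ
  obtain ⟨K, Q, hK⟩ := (structH k W hk).2 κ
  refine ⟨K, Q, fun C hC => ?_⟩
  obtain ⟨N₀, hN₀⟩ := hK C hC
  refine ⟨N₀, fun N hN => ?_⟩
  obtain ⟨P, h1, h2, h3⟩ := hN₀ N hN
  refine ⟨P, h1, h2, fun s hs hne => h3 s ⟨hs, fun h => hne ?_⟩⟩
  show relationSpace k W s (C ^ N) = identities k W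
  rw [relationSpace_eq, identities_eq, h]

theorem OffHyperplanes.mono {k : ℕ} {P P' : ℝ → (Fin k → ℕ) → Prop} (h : OffHyperplanes P)
    (hP : ∀ B s, P B s → P' B s) : OffHyperplanes P' := by
  intro κ
  obtain ⟨K, Q, hK⟩ := h κ
  refine ⟨K, Q, fun C hC => ?_⟩
  obtain ⟨N₀, hN₀⟩ := hK C hC
  refine ⟨N₀, fun N hN => ?_⟩
  obtain ⟨H, h1, h2, h3⟩ := hN₀ N hN
  exact ⟨H, h1, h2, fun s hs hne => h3 s hs fun h => hne (hP _ _ h)⟩

/-- two properties which hold off few hyperplanes hold for one tuple -/
theorem OffHyperplanes.exists_both {k : ℕ} (hk : 0 < k) {P P' : ℝ → (Fin k → ℕ) → Prop} (h : OffHyperplanes P)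
    (h' : OffHyperplanes P') : ∃ B s, P B s ∧ P' B s := by
  obtain ⟨K, Q, hK⟩ := h 2
  obtain ⟨K', Q', hK'⟩ := h' 2
  obtain ⟨N₀, hN₀⟩ := hK 2 one_lt_two
  obtain ⟨N₁, hN₁⟩ := hK' 2 one_lt_two
  obtain ⟨H, h1, h2, h3⟩ := hN₀ (N₀ + N₁ + (K + K')) (by omega)
  obtain ⟨H', h1', h2', h3'⟩ := hN₁ (N₀ + N₁ + (K + K')) (by omega)
  have hB : OnFew K Q {s : Fin k → ℕ | (∀ j, N₀ + N₁ + (K + K') ≤ s j ∧ s j ≤ 2 * (N₀ + N₁ + (K + K'))) ∧
      ¬ P (2 ^ (N₀ + N₁ + (K + K'))) s} := ⟨H, h1, h2, fun s hs => h3 s hs.1 hs.2⟩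
  have hB' : OnFew K' Q' {s : Fin k → ℕ | (∀ j, N₀ + N₁ + (K + K') ≤ s j ∧ s j ≤ 2 * (N₀ + N₁ + (K + K'))) ∧
      ¬ P' (2 ^ (N₀ + N₁ + (K + K'))) s} := ⟨H', h1', h2', fun s hs => h3' s hs.1 hs.2⟩
  obtain ⟨s, hs, hsB⟩ := exists_off hk (by omega : K + K' ≤ N₀ + N₁ + (K + K')) (hB.union hB')
  refine ⟨2 ^ (N₀ + N₁ + (K + K')), s, ?_, ?_⟩
  · by_contra hcon
    exact hsB (Or.inl ⟨hs, hcon⟩)
  · by_contra hcon
    exact hsB (Or.inr ⟨hs, hcon⟩)

/-- the pattern `(s_1 + ... + s_k)` -/
theorem numFree_pos {k : ℕ} (hk : 0 < k) : 0 < numFree k 0 := by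
  rw [numFree_eq, gk_eq k 0 0 le_rfl, card_pos]
  refine ⟨[(0, 1)], ?_⟩
  rw [mem_filter, mem_goods]
  have h1 : (1 : Fin k → ℕ) ≠ 0 := fun h => one_ne_zero (congrFun h ⟨0, hk⟩)
  refine ⟨⟨⟨fun u hu => ?_, fun u hu => ?_⟩, ?_, ?_⟩, ?_⟩
  · simp only [List.head?_cons, Option.mem_some_iff] at hu
    rw [← hu]
    exact h1
  · rw [List.mem_singleton] at hu
    rw [hu]
    exact Or.inl h1
  · simp [wt]
  · simp [wt]
  · simp [wt]

/-- the weighted sums determine the numbers -/
theorem eq_of_sums (g : ℕ → ℕ) (hg : 0 < g 0) (x y : ℕ → ℕ) (h : ∀ W, ∑ n ∈ range (W + 1), g (W - n) * x n =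
    ∑ n ∈ range (W + 1), g (W - n) * y n) : ∀ n, x n = y n := by
  intro n
  induction n using Nat.strong_induction_on with
  | _ n ih =>
    have h1 := h n
    rw [sum_range_succ, sum_range_succ, Nat.sub_self, sum_congr rfl fun m hm => by rw [ih m (mem_range.1 hm)]] at h1
    exact Nat.eq_of_mul_eq_mul_left hg (Nat.add_left_cancel h1)

/-- **Theorem.** Let `k ≥ 1`. (1) The space of the identities `∑ c_w ζ(w(s)) = 0`, for all `s_1, ..., s_k ≥ 2`, between the
patterns of weight `s_1 + ... + s_k + W` has dimension `∑_{n ≤ W} g(W - n) (a_n - dim Z_n)`, where `g(m)` is the number of the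
patterns of weight `s_1 + ... + s_k + m` whose first letter is not constant and `a_n` is the number of admissible indices of
weight `n`. (2) For all `κ` there are `K`, `Q` such that for all `C > 1` and all large `N`, for all `s ∈ [N, κ N] ^ k` off at most
`K` hyperplanes with integral normal vectors `c ≠ 0`, `|c_j| ≤ Q`, the relations of height at most `C ^ N` at `s` span the
space of the identities. (3) `dim Z_n = d_n` for all `n` if and only if for all `W` the space of the identities has dimension
`∑_{n ≤ W} g(W - n) (a_n - d_n)`, and if and only if for all `W`, off few hyperplanes, the relations of height at most `C ^ N`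
span a space of this dimension. (4) For `W ≤ 2` the space of the identities is zero, and for `W = 3` its dimension is
`g(0)`. -/
theorem result (k : ℕ) (hk : 0 < k) :
    (∀ W : ℕ, Module.finrank ℚ (identities k W) +
      ∑ n ∈ Finset.range (W + 1), numFree k (W - n) * Module.finrank ℚ (weightSpace n) =
        ∑ n ∈ Finset.range (W + 1), numFree k (W - n) * numIndices n) ∧
    (∀ W : ℕ, OffHyperplanes fun B s => relationSpace k W s B = identities k W) ∧
    ((∀ n, Module.finrank ℚ (weightSpace n) = zagier n) ↔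
      ∀ W : ℕ, Module.finrank ℚ (identities k W) +
        ∑ n ∈ Finset.range (W + 1), numFree k (W - n) * zagier n =
          ∑ n ∈ Finset.range (W + 1), numFree k (W - n) * numIndices n) ∧
    ((∀ n, Module.finrank ℚ (weightSpace n) = zagier n) ↔
      ∀ W : ℕ, OffHyperplanes fun B (s : Fin k → ℕ) => Module.finrank ℚ (relationSpace k W s B) +
        ∑ n ∈ Finset.range (W + 1), numFree k (W - n) * zagier n =
          ∑ n ∈ Finset.range (W + 1), numFree k (W - n) * numIndices n) ∧
    (∀ W : ℕ, W ≤ 2 → identities k W = ⊥) ∧ Module.finrank ℚ (identities k 3) = numFree k 0 := by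
  refine ⟨dims hk, off hk, ⟨fun h W => ?_, fun h => ?_⟩, ⟨fun h W => ?_, fun h => ?_⟩, fun W hW => ?_, ?_⟩
  · have h1 := dims hk W
    simp only [h] at h1
    exact h1
  · refine eq_of_sums (numFree k) (numFree_pos hk) _ _ fun W => ?_
    exact Nat.add_left_cancel ((dims hk W).trans (h W).symm)
  · refine (off hk W).mono fun B s h1 => ?_
    have h2 := dims hk W
    simp only [h] at h2
    rw [h1]
    exact h2
  · refine eq_of_sums (numFree k) (numFree_pos hk) _ _ fun W => ?_
    obtain ⟨B, s, h1, h2⟩ := (off hk W).exists_both hk (h W)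
    rw [h1] at h2
    exact Nat.add_left_cancel ((dims hk W).trans h2.symm)
  · have h1 := dims hk W
    have h2 : Module.finrank ℚ (identities k W) = 0 := by
      obtain rfl | rfl | rfl : W = 0 ∨ W = 1 ∨ W = 2 := by omega
      all_goals
        simp only [Finset.sum_range_succ, Finset.sum_range_zero, rank_zero', rank_one', rank_two',
          numIndices] at h1
        omega
    rw [identities_eq] at h2 ⊢
    exact Submodule.finrank_eq_zero.1 h2
  · have h1 := dims hk 3
    simp only [Finset.sum_range_succ, Finset.sum_range_zero, rank_zero', rank_one', rank_two', rank_three',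
      numIndices] at h1
    have h2 : numFree k (3 - 3) * 2 ^ 1 = numFree k 0 + numFree k 0 := by
      rw [Nat.sub_self]
      ring
    have h3 : numFree k (3 - 3) * 1 = numFree k 0 := by rw [Nat.sub_self, mul_one]
    omega

end Pool.Agent.Results.MP_56e040_nt.SeveralLargeArguments
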