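import Pool.Agent.T9h86.ZD.Bad

/-!
# MP_56e040_nt: Zagier's dimensions and the relations between multiple zeta values of weight `k` with a large argument, for the
# weights `k` near the orders of subgroups of `F_p^*`

Let `a_n` be the number of admissible indices of weight `n` (`a_0 = 1`, `a_1 = 0`, `a_n = 2 ^ (n - 2)`) and `Z_n` the `ℚ`-space
spanned by the multiple zeta values of weight `n`. The exact formula (`ExactDim W C k`) says that the relations with integer
coefficients of absolute value at most `C ^ k` between the multiple zeta values of weight `k` with an argument at least `k - W`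
span a space of dimension `∑_{n ≤ W} 2 ^ (W - n) (a_n - dim Z_n)`. If Zagier's conjecture `dim Z_n = d_n` holds for `n ≤ W` then this
is `∑_{n ≤ W} 2 ^ (W - n) (a_n - d_n)`, and the formulas for all `W`, each for one `k`, determine the dimensions of all `Z_n`.

**Theorem.** Let `G` be a real sequence with steps bounded below by a positive constant and growth at most `v^d` (for example
`α v^d`), `0 ≤ θ < 1`, `0 ≤ c < 1` and `ρ < (1 - c) (1 - θ) / 2`. There is ONE set `E` of primes, with at most `X^(1 - ρ)` elements up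
to `X` for all `X ≥ 1`, such that for ALL `W` and ALL `C > 1`, for all but finitely many primes `p` outside `E`: for the orders `w`
of ALL subgroups of `F_p^*` which contain an integer `a` with `2 ≤ a ≤ p^c` (for example the subgroups generated by such
integers), the exact formula holds for ALL weights `k` with `|k - G(w)| ≤ w^θ`, so for `G(w) = w` also for the weight `w` itself.

The starting theorem `RelationsOneLargeArgument` of this page says that for each `W`, `κ` there is `K` such that for all `C` and
all large `N` the exact formula holds for all but at most `K` of the `k ∈ [N, κ N]`. One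
prime `p` has many subgroups and one `w` can occur for many primes, so this count alone does not give the theorem. The tool for
the subgroups is from helper59 (`Pool.Agent.T9h59.OR`); here it is used for countably many properties at once
(`Pool.Agent.T9h86.PK`).
-/

set_option autoImplicit false

namespace Pool.Agent.Results.MP_56e040_nt.SubgroupOrders

open Pool.Agent.T9h86.PK (subs_all)
open Pool.Agent.T9h86.ZD
open Pool.Agent.N733.TG (Expanding expanding_pow)
open Pool.Agent.T9h59.OR (SubOrder subOrder_orderOf)

/-- **Exact dimensions for the weights near the orders of subgroups of `F_p^*`.** Let `G` have steps `≥ a > 0` and growth at most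
`v ^ d`, `0 ≤ θ < 1`, `0 ≤ c < 1` and `ρ < (1 - c) (1 - θ) / 2`. There is a set `E` with at most `X ^ (1 - ρ)` elements up to `X`,
`X ≥ 1`, such that for all `W` and all `C > 1`, for all but finitely many primes `p` outside `E`, for the orders `w` of ALL subgroups
of `F_p^*` which contain an integer `a`, `2 ≤ a ≤ p ^ c` (`SubOrder (p ^ c) p w`), and ALL weights `k` with
`|k - G w| ≤ w ^ θ`, the relations of height at most `C ^ k` between the multiple zeta values of weight `k` with an argument at
least `k - W` span a space of dimension `∑_{n ≤ W} 2 ^ (W - n) (a_n - dim Z_n)` (`ExactDim W C k`). The order of `a` modulo `p` is such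
a number `w`, and `α v ^ d` with `α > 0`, `d ≥ 1` is an example of `G`. -/
theorem result :
    (∀ (G : ℕ → ℝ) (d θ : ℝ), Expanding G d → 0 ≤ θ → θ < 1 → ∀ c ρ : ℝ, 0 ≤ c → c < 1 → ρ < (1 - c) * (1 - θ) / 2 →
      ∃ E : Set ℕ, (∀ X : ℕ, 1 ≤ X → ({p : ℕ | p ∈ E ∧ p ≤ X}.ncard : ℝ) ≤ (X : ℝ) ^ (1 - ρ)) ∧
        ∀ (W : ℕ) (C : ℝ), 1 < C → {p : ℕ | p.Prime ∧ p ∉ E ∧ ¬ ∀ w, SubOrder ((p : ℝ) ^ c) p w → ∀ k : ℕ,
          |(k : ℝ) - G w| ≤ (w : ℝ) ^ θ → ExactDim W C k}.Finite) ∧
    (∀ (B : ℝ) (p a : ℕ), p.Prime → 2 ≤ a → (a : ℝ) ≤ B → ¬ p ∣ a → SubOrder B p (orderOf (a : ZMod p))) ∧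
    ∀ α d : ℝ, 0 < α → 1 ≤ d → Expanding (fun v => α * (v : ℝ) ^ d) d := by
  refine ⟨fun G d θ hG hθ h1 c ρ hc0 hc1 hρ => ?_, fun B p a hp ha haB hpa => subOrder_orderOf hp ha haB hpa,
    fun α d hα hd => expanding_pow hα hd⟩
  obtain ⟨E, hE1, hE2⟩ := subs_all (fun k : ℕ => (k : ℝ)) badSets_countable hG (s := 0) (κ := θ) le_rfl hθ
    (by rw [mul_zero, zero_add]; exact h1) badSets_thin hc0 hc1 (η := ρ) (by rw [mul_zero, zero_add]; exact hρ)
  refine ⟨E, hE1, fun W C hC => ?_⟩
  obtain ⟨C₁, C₂, h2, h3, h4, h5⟩ := around hC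
  refine ((hE2 _ ⟨W, C₁, h2, rfl⟩).union (hE2 _ ⟨W, C₂, h3, rfl⟩)).subset ?_
  rintro p ⟨hp, hpE, h⟩
  by_contra hcon
  rw [Set.mem_union, not_or] at hcon
  obtain ⟨g1, g2⟩ := hcon
  refine h fun w hw k hk => ?_
  refine interp (C₁ := C₁) (C₂ := C₂) (by exact_mod_cast h2) h4 h5 ?_ ?_
  · by_contra hbad
    exact g1 ⟨hp, hpE, fun hall => hall w hw k hbad hk⟩
  · by_contra hbad
    exact g2 ⟨hp, hpE, fun hall => hall w hw k hbad hk⟩

end Pool.Agent.Results.MP_56e040_nt.SubgroupOrders
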