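import Pool.Agent.T9h86.ZD.Bad

/-!
# MP_56e040_nt: Zagier's dimensions and the relations between multiple zeta values of weight `k` with a large argument, for the
# weights `k` near the members of the orbits of Euler's function

Let `a_n` be the number of admissible indices of weight `n` (`a_0 = 1`, `a_1 = 0`, `a_n = 2 ^ (n - 2)`) and `Z_n` the `ℚ`-space
spanned by the multiple zeta values of weight `n`. The exact formula (`ExactDim W C k`) says that the relations with integer
coefficients of absolute value at most `C ^ k` between the multiple zeta values of weight `k` with an argument at least `k - W`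
span a space of dimension `∑_{n ≤ W} 2 ^ (W - n) (a_n - dim Z_n)`. If Zagier's conjecture `dim Z_n = d_n` holds for `n ≤ W` then this
is `∑_{n ≤ W} 2 ^ (W - n) (a_n - d_n)`, and the formulas for all `W`, each for one `k`, determine the dimensions of all `Z_n`.

**Theorem.** Let `f` be a function like `m`, `φ(m)`, `σ(m)` (class `LM`), let `φ_j` be the `j`-th iterate of Euler's function, let
`G` be a real sequence with steps bounded below by a positive constant and growth at most `v^d` (for example `α v^d`), and
`0 ≤ θ < 1`. There are ONE set `E` of density zero and ONE function `K(m)` which tends to infinity such that for ALL `W` and ALL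
`C > 1`, for all but finitely many `m` outside `E`: for ALL `j ≤ K(m)`, with `w = f(φ_j(m))`, the exact formula holds for ALL weights
`k` with `|k - G(w)| ≤ w^θ`, so for `G(w) = w` also for the weight `w` itself.

The starting theorem `RelationsOneLargeArgument` of this page says that for each `W`, `κ` there is `K` such that for all `C` and
all large `N` the exact formula holds for all but at most `K` of the `k ∈ [N, κ N]`. The
values of the iterates of Euler's function are a thin set, and a value can have many preimages, so this count alone does not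
give the theorem. The tool for the orbits is from helper760 (`Pool.Agent.N760.IT`); here it is used for countably many
properties at once (`Pool.Agent.T9h86.PK`).
-/

set_option autoImplicit false

namespace Pool.Agent.Results.MP_56e040_nt.TotientOrbits

open Filter Topology
open Pool.Agent.T9h86.PK (orbits_all)
open Pool.Agent.T9h86.ZD
open Pool.Agent.N733.TG (LM Expanding expanding_pow)
open Pool.Agent.N826.IT.Orb (AlmostAll)

/-- **Exact dimensions for the weights near the members of the orbits of Euler's function.** Let `f` be in the class `LM`, let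
`G` have steps `≥ a > 0` and growth at most `v ^ d`, and `0 ≤ θ < 1`. There are a function `K` which tends to infinity and a set `E`
of density zero such that for all `W` and all `C > 1`, for all but finitely many `m` outside `E`, for ALL `j ≤ K m`, with
`w = f (φ_j m)`, and ALL weights `k` with `|k - G w| ≤ w ^ θ`, the relations of height at most `C ^ k` between the multiple zeta
values of weight `k` with an argument at least `k - W` span a space of dimension `∑_{n ≤ W} 2 ^ (W - n) (a_n - dim Z_n)`
(`ExactDim W C k`). The functions `m`, `φ(m)`, `σ(m)` are in the class `LM`, and `α v ^ d` with `α > 0`, `d ≥ 1` is an example of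
`G`. -/
theorem result :
    (∀ (f : ℕ → ℕ) (G : ℕ → ℝ) (d θ : ℝ), LM f → Expanding G d → 0 ≤ θ → θ < 1 →
      ∃ (K : ℕ → ℕ) (E : Set ℕ), Tendsto K atTop atTop ∧ AlmostAll (fun m => m ∉ E) ∧
        ∀ (W : ℕ) (C : ℝ), 1 < C → {m : ℕ | m ∉ E ∧ ¬ ∀ j ≤ K m, ∀ k : ℕ,
          |(k : ℝ) - G (f (Nat.totient^[j] m))| ≤ (f (Nat.totient^[j] m) : ℝ) ^ θ → ExactDim W C k}.Finite) ∧
    (LM (fun m => m) ∧ LM Nat.totient ∧ LM (fun m => ∑ d ∈ m.divisors, d)) ∧
    ∀ α d : ℝ, 0 < α → 1 ≤ d → Expanding (fun v => α * (v : ℝ) ^ d) d := by
  refine ⟨fun f G d θ hf hG hθ h1 => ?_,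
    ⟨Pool.Agent.N760.IT.lm_id, Pool.Agent.N733.TG.lm_totient, Pool.Agent.N733.TG.lm_sigma⟩,
    fun α d hα hd => expanding_pow hα hd⟩
  obtain ⟨K, E, hK, hE1, hE2⟩ := orbits_all (fun k : ℕ => (k : ℝ)) badSets_countable hf hG (s := 0) (κ := θ) le_rfl hθ
    (by rw [mul_zero, zero_add]; exact h1) badSets_thin
  refine ⟨K, E, hK, hE1, fun W C hC => ?_⟩
  obtain ⟨C₁, C₂, h2, h3, h4, h5⟩ := around hC
  refine ((hE2 _ ⟨W, C₁, h2, rfl⟩).union (hE2 _ ⟨W, C₂, h3, rfl⟩)).subset ?_
  rintro m ⟨hmE, h⟩
  by_contra hcon
  rw [Set.mem_union, not_or] at hcon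
  obtain ⟨g1, g2⟩ := hcon
  refine h fun j hj k hk => ?_
  refine interp (C₁ := C₁) (C₂ := C₂) (by exact_mod_cast h2) h4 h5 ?_ ?_
  · by_contra hbad
    exact g1 ⟨hmE, fun hall => hall j hj k hbad hk⟩
  · by_contra hbad
    exact g2 ⟨hmE, fun hall => hall j hj k hbad hk⟩

end Pool.Agent.Results.MP_56e040_nt.TotientOrbits
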